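import Mathlib
import Pool.Agent.Helper36.Sq.Goals
import Pool.Agent.Helper18.PB2.Stage

/-!
# Project SQ (MP_b9cb57_an), packet SQ-STEP: the lossless step
-/

set_option autoImplicit false

namespace Pool.Agent.Helper13.Sq

open Pool.Agent.Helper36.Sq

universe u v

variable {X : Type u} [NormedAddCommGroup X] [NormedSpace ℝ X]

/-- A node: the infimum `G` over the ball of `c - L u + r ‖u - x‖`, and its properties. -/
theorem node (L : X →L[ℝ] ℝ) (x : X) (c r : ℝ) (hx : ‖x‖ ≤ 1) (hr : 0 ≤ r) (hL : ‖L‖ ≤ c) :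
    ∃ G : ℝ, G ≤ c - L x ∧
      (∀ η : ℝ, 0 < η → ∃ u : X, ‖u‖ ≤ 1 ∧ c - L u + r * ‖u - x‖ ≤ G + η) ∧
      ∀ η : ℝ, 0 < η → ∃ φ : X →L[ℝ] ℝ, ‖φ‖ ≤ r ∧ ‖L - φ‖ ≤ c - G + η - φ x := by
  set s : Set ℝ := {a | ∃ u : X, ‖u‖ ≤ 1 ∧ a = c - L u + r * ‖u - x‖} with hs
  have hxs : c - L x ∈ s := ⟨x, hx, by simp⟩
  have hne : s.Nonempty := ⟨_, hxs⟩
  have hbd : BddBelow s := by
    refine ⟨0, ?_⟩
    rintro a ⟨u, hu, rfl⟩
    have h1 : L u ≤ ‖L‖ := by
      have h2 := L.le_opNorm u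
      have h3 : ‖L‖ * ‖u‖ ≤ ‖L‖ * 1 := mul_le_mul_of_nonneg_left hu (norm_nonneg _)
      have h4 := Real.le_norm_self (L u)
      linarith
    have h5 : 0 ≤ r * ‖u - x‖ := mul_nonneg hr (norm_nonneg _)
    linarith
  refine ⟨sInf s, csInf_le hbd hxs, ?_, ?_⟩
  · intro η hη
    obtain ⟨a, ⟨u, hu, rfl⟩, ha⟩ := exists_lt_of_csInf_lt hne (show sInf s < sInf s + η by linarith)
    exact ⟨u, hu, ha.le⟩
  · intro η hη
    have hG : ∀ y : X, ‖y‖ ≤ 1 → sInf s ≤ c - L y + r * ‖y - x‖ := fun y hy =>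
      csInf_le hbd ⟨y, hy, rfl⟩
    have hGx : sInf s ≤ c - L x := csInf_le hbd hxs
    obtain ⟨W, hW1, -, hW2⟩ := Pool.Agent.Helper18.PB2.sandwich L x x r (c - sInf s + η - L x) hr
      (by linarith) hx (by
        intro y hy
        have h1 := hG y hy
        rw [map_sub, sub_self, norm_zero, mul_zero]
        linarith)
    refine ⟨W, hW1, ?_⟩
    have h3 : ∀ y : X, ‖y‖ ≤ 1 → (L - W) y ≤ c - sInf s + η - W x := by
      intro y hy
      have h4 := hW2 y hy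
      rw [map_sub] at h4
      have h5 : (L - W) x = L x - W x := rfl
      linarith
    have hC : 0 ≤ c - sInf s + η - W x := by
      have := h3 0 (by simp)
      rwa [map_zero] at this
    refine ContinuousLinearMap.opNorm_le_of_unit_norm hC ?_
    intro y hy
    rw [Real.norm_eq_abs, abs_le]
    refine ⟨?_, h3 y hy.le⟩
    have h6 := h3 (-y) (by rw [norm_neg]; exact hy.le)
    rw [map_neg] at h6
    linarith

/-- The end nodes. -/
theorem endNode (L : X →L[ℝ] ℝ) (x : X) :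
    ∀ η : ℝ, 0 < η → ∃ φ : X →L[ℝ] ℝ, ‖φ‖ ≤ 0 ∧ ‖L - φ‖ ≤ ‖L‖ - 0 + η - φ x := by
  intro η hη
  refine ⟨0, by simp, ?_⟩
  simp only [sub_zero, _root_.zero_apply]
  linarith

/-- The child of a state. -/
theorem child (f g : X →L[ℝ] ℝ) (x : X) (m h ε G₀ Gp Gn c₀ cp cn r₀ rp rn : ℝ) (hh : 0 < h)
    (hε : 0 < ε) (hc : c₀ = (cp + cn) / 2) (hr : r₀ = (rp + rn) / 2 + h ^ 2 / 8)
    (hrp : rp ≤ h ^ 2 / 2) (hrn : rn ≤ h ^ 2 / 2)
    (h0 : ∀ η : ℝ, 0 < η → ∃ u : X, ‖u‖ ≤ 1 ∧ c₀ - (f + m • g) u + r₀ * ‖u - x‖ ≤ G₀ + η)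
    (hp : ∀ η : ℝ, 0 < η → ∃ φ : X →L[ℝ] ℝ, ‖φ‖ ≤ rp ∧
      ‖(f + (m + h / 2) • g) - φ‖ ≤ cp - Gp + η - φ x)
    (hn : ∀ η : ℝ, 0 < η → ∃ φ : X →L[ℝ] ℝ, ‖φ‖ ≤ rn ∧
      ‖(f + (m - h / 2) • g) - φ‖ ≤ cn - Gn + η - φ x) :
    ∃ S' : St X, ‖S'.x‖ ≤ 1 ∧ S'.m = m ∧ ‖S'.g - g‖ ≤ h ∧
      ‖(S'.f + S'.m • S'.g) - (f + S'.m • g)‖ ≤ h ^ 2 / 2 ∧
      2 * en S' (h / 2) / (h / 2) ^ 2 + ‖S'.x - x‖ ≤ 8 / h ^ 2 * (G₀ - (Gp + Gn) / 2) + ε := by
  have hη : 0 < ε * h ^ 2 / 16 := by positivity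
  obtain ⟨u, hu, hu1⟩ := h0 _ hη
  obtain ⟨φ, hφ, hφ1⟩ := hp _ hη
  obtain ⟨ψ, hψ, hψ1⟩ := hn _ hη
  have hh0 : h ≠ 0 := hh.ne'
  set g' : X →L[ℝ] ℝ := g - (1 / h) • (φ - ψ) with hg'
  set f' : X →L[ℝ] ℝ := f - (1 / 2 : ℝ) • (φ + ψ) + (m / h) • (φ - ψ) with hf'
  have e1 : f' + (m + h / 2) • g' = (f + (m + h / 2) • g) - φ := by
    ext y
    simp only [hf', hg', _root_.add_apply, _root_.sub_apply,
      _root_.smul_apply, smul_eq_mul]
    field_simp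
    ring
  have e2 : f' + (m - h / 2) • g' = (f + (m - h / 2) • g) - ψ := by
    ext y
    simp only [hf', hg', _root_.add_apply, _root_.sub_apply,
      _root_.smul_apply, smul_eq_mul]
    field_simp
    ring
  have e3 : f' + m • g' = (f + m • g) - (1 / 2 : ℝ) • (φ + ψ) := by
    ext y
    simp only [hf', hg', _root_.add_apply, _root_.sub_apply,
      _root_.smul_apply, smul_eq_mul]
    field_simp
    ring
  refine ⟨⟨f', g', u, m⟩, hu, rfl, ?_, ?_, ?_⟩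
  · show ‖g' - g‖ ≤ h
    have e4 : g' - g = -((1 / h) • (φ - ψ)) := by rw [hg']; abel
    rw [e4, norm_neg, norm_smul, Real.norm_of_nonneg (by positivity)]
    have h1 : ‖φ - ψ‖ ≤ h ^ 2 := by
      refine (norm_sub_le _ _).trans ?_
      linarith
    calc 1 / h * ‖φ - ψ‖ ≤ 1 / h * h ^ 2 := mul_le_mul_of_nonneg_left h1 (by positivity)
      _ = h := by field_simp
  · show ‖(f' + m • g') - (f + m • g)‖ ≤ h ^ 2 / 2
    have e5 : (f' + m • g') - (f + m • g) = -((1 / 2 : ℝ) • (φ + ψ)) := by rw [e3]; abel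
    rw [e5, norm_neg, norm_smul, Real.norm_of_nonneg (by norm_num)]
    have h1 : ‖φ + ψ‖ ≤ h ^ 2 := by
      refine (norm_add_le _ _).trans ?_
      linarith
    linarith
  · have hen : en (⟨f', g', u, m⟩ : St X) (h / 2)
        = (‖(f + (m + h / 2) • g) - φ‖ + ‖(f + (m - h / 2) • g) - ψ‖) / 2
          - ((f + m • g) u - (1 / 2) * (φ u + ψ u)) := by
      unfold en
      simp only
      rw [e1, e2, e3]
      simp only [_root_.add_apply, _root_.sub_apply,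
        _root_.smul_apply, smul_eq_mul]
    show 2 * en (⟨f', g', u, m⟩ : St X) (h / 2) / (h / 2) ^ 2 + ‖u - x‖ ≤ _
    have h1 : φ u - φ x ≤ rp * ‖u - x‖ := by
      rw [← map_sub]
      have h2 := φ.le_opNorm (u - x)
      have h3 : ‖φ‖ * ‖u - x‖ ≤ rp * ‖u - x‖ := mul_le_mul_of_nonneg_right hφ (norm_nonneg _)
      have h4 := Real.le_norm_self (φ (u - x))
      linarith
    have h1' : ψ u - ψ x ≤ rn * ‖u - x‖ := by
      rw [← map_sub]
      have h2 := ψ.le_opNorm (u - x)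
      have h3 : ‖ψ‖ * ‖u - x‖ ≤ rn * ‖u - x‖ := mul_le_mul_of_nonneg_right hψ (norm_nonneg _)
      have h4 := Real.le_norm_self (ψ (u - x))
      linarith
    have h5 : en (⟨f', g', u, m⟩ : St X) (h / 2)
        ≤ G₀ - (Gp + Gn) / 2 + 2 * (ε * h ^ 2 / 16) - h ^ 2 / 8 * ‖u - x‖ := by
      rw [hen]
      subst hc hr
      nlinarith
    have h6 : 2 * en (⟨f', g', u, m⟩ : St X) (h / 2) / (h / 2) ^ 2
        = 8 / h ^ 2 * en (⟨f', g', u, m⟩ : St X) (h / 2) := by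
      field_simp
      ring
    have h7 : 8 / h ^ 2 * (G₀ - (Gp + Gn) / 2 + 2 * (ε * h ^ 2 / 16) - h ^ 2 / 8 * ‖u - x‖)
        = 8 / h ^ 2 * (G₀ - (Gp + Gn) / 2) + ε - ‖u - x‖ := by
      field_simp
      ring
    have h8 := mul_le_mul_of_nonneg_left h5 (show (0 : ℝ) ≤ 8 / h ^ 2 by positivity)
    rw [h6]
    linarith

/-- Packet SQ-STEP. -/
theorem gStep : GStep.{u} := by
  intro X _ _ S h ε hx hh hε
  set Np : ℝ := ‖S.f + (S.m + h) • S.g‖ with hNp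
  set Nn : ℝ := ‖S.f + (S.m - h) • S.g‖ with hNn
  have hconv : ∀ t : ℝ, -1 ≤ t → t ≤ 1 → ‖S.f + (S.m + t * h) • S.g‖ ≤ (Np + Nn) / 2 + t * (Np - Nn) / 2 := by
    intro t ht1 ht2
    have e : S.f + (S.m + t * h) • S.g = ((1 + t) / 2) • (S.f + (S.m + h) • S.g)
        + ((1 - t) / 2) • (S.f + (S.m - h) • S.g) := by
      ext y
      simp only [_root_.add_apply, _root_.smul_apply, smul_eq_mul]
      ring
    rw [e]
    refine (norm_add_le _ _).trans ?_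
    rw [norm_smul, norm_smul, Real.norm_of_nonneg (by linarith), Real.norm_of_nonneg (by linarith)]
    rw [← hNp, ← hNn]
    linarith
  obtain ⟨Ga, -, ha1, ha2⟩ := node (S.f + (S.m + (-1 / 2) * h) • S.g) S.x _ (3 * h ^ 2 / 8) hx
    (by positivity) (hconv (-1 / 2) (by norm_num) (by norm_num))
  obtain ⟨Gb, hb0, hb1, hb2⟩ := node (S.f + (S.m + 0 * h) • S.g) S.x _ (h ^ 2 / 2) hx
    (by positivity) (hconv 0 (by norm_num) (by norm_num))
  obtain ⟨Gc, -, hc1, hc2⟩ := node (S.f + (S.m + (1 / 2) * h) • S.g) S.x _ (3 * h ^ 2 / 8) hx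
    (by positivity) (hconv (1 / 2) (by norm_num) (by norm_num))
  have hzn := endNode (S.f + (S.m - h) • S.g) S.x
  have hzp := endNode (S.f + (S.m + h) • S.g) S.x
  have hh2 : 0 < h ^ 2 := by positivity
  refine ⟨![8 / h ^ 2 * (Ga - (Gb + 0) / 2), 8 / h ^ 2 * (Gb - (Gc + Ga) / 2),
    8 / h ^ 2 * (Gc - (0 + Gb) / 2)], ?_, ?_⟩
  · simp only [Matrix.cons_val_zero, Matrix.cons_val_one, Matrix.cons_val]
    have e : 8 / h ^ 2 * (Ga - (Gb + 0) / 2) / 4 + 8 / h ^ 2 * (Gb - (Gc + Ga) / 2) / 2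
        + 8 / h ^ 2 * (Gc - (0 + Gb) / 2) / 4 = 2 * Gb / h ^ 2 := by
      ring
    rw [e]
    refine div_le_div_of_nonneg_right ?_ hh2.le
    have h1 : Gb ≤ en S h := by
      unfold en
      rw [← hNp, ← hNn]
      have e2 : S.m + 0 * h = S.m := by ring
      rw [e2] at hb0
      linarith
    linarith
  · intro i
    fin_cases i
    · simp only [Fin.zero_eta, Matrix.cons_val_zero]
      have e1 : S.m + (-1 / 2) * h = S.m + ((((0 : Fin 3) : ℕ) : ℝ) - 1) * (h / 2) := by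
        norm_num
        ring
      rw [e1] at ha1
      have e2 : S.m + 0 * h = (S.m + ((((0 : Fin 3) : ℕ) : ℝ) - 1) * (h / 2)) + h / 2 := by
        norm_num
      rw [e2] at hb2
      have e3 : S.m - h = (S.m + ((((0 : Fin 3) : ℕ) : ℝ) - 1) * (h / 2)) - h / 2 := by
        norm_num
        ring
      rw [e3] at hzn
      exact child S.f S.g S.x _ h ε Ga Gb 0 _ _ _ _ _ _ hh hε (by rw [hNn, e3]; ring)
        (by ring) (by linarith) (by linarith) ha1 hb2 hzn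
    · simp only [Fin.mk_one, Matrix.cons_val_one, Matrix.cons_val_zero]
      have e1 : S.m + 0 * h = S.m + ((((1 : Fin 3) : ℕ) : ℝ) - 1) * (h / 2) := by
        norm_num
      rw [e1] at hb1
      have e2 : S.m + (1 / 2) * h = (S.m + ((((1 : Fin 3) : ℕ) : ℝ) - 1) * (h / 2)) + h / 2 := by
        norm_num
        ring
      rw [e2] at hc2
      have e3 : S.m + (-1 / 2) * h = (S.m + ((((1 : Fin 3) : ℕ) : ℝ) - 1) * (h / 2)) - h / 2 := by
        norm_num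
        ring
      rw [e3] at ha2
      exact child S.f S.g S.x _ h ε Gb Gc Ga _ _ _ _ _ _ hh hε (by ring)
        (by ring) (by linarith) (by linarith) hb1 hc2 ha2
    · simp only [Fin.reduceFinMk, Matrix.cons_val]
      have e1 : S.m + (1 / 2) * h = S.m + ((((2 : Fin 3) : ℕ) : ℝ) - 1) * (h / 2) := by
        norm_num
        ring
      rw [e1] at hc1
      have e2 : S.m + h = (S.m + ((((2 : Fin 3) : ℕ) : ℝ) - 1) * (h / 2)) + h / 2 := by
        norm_num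
        ring
      rw [e2] at hzp
      have e3 : S.m + 0 * h = (S.m + ((((2 : Fin 3) : ℕ) : ℝ) - 1) * (h / 2)) - h / 2 := by
        norm_num
      rw [e3] at hb2
      exact child S.f S.g S.x _ h ε Gc 0 Gb _ _ _ _ _ _ hh hε (by rw [hNp, e2]; ring)
        (by ring) (by linarith) (by linarith) hc1 hzp hb2

end Pool.Agent.Helper13.Sq
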